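import Pool.Agent.H84.Sym.Defs2
import Pool.Agent.H95.Sym.K
import Pool.Agent.H85.Sym.Q1
import Pool.Agent.H85.Sym.Q2
import Pool.Agent.H5.Sym.Q3
import Pool.Agent.H14.Sym.Q4

/-!
# Project SYM2, module Q5: bodies with orthogonal symmetries and a small fixed space
-/

set_option autoImplicit false
set_option linter.unusedSectionVars false

open MeasureTheory Set Filter Topology
open scoped ContDiff Pointwise

namespace Pool.Agent.H84.Sym

open Pool.Agent.H84

universe v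

variable {E : Type v} [NormedAddCommGroup E] [InnerProductSpace ℝ E]
    [FiniteDimensional ℝ E] [MeasurableSpace E] [BorelSpace E]

/-- The statement of `pot_main2` (module P7) for the space `E`. -/
def PotMain2St (E : Type v) [NormedAddCommGroup E] [InnerProductSpace ℝ E]
    [FiniteDimensional ℝ E] [MeasurableSpace E] [BorelSpace E] : Prop :=
  ∀ (S : Submodule ℝ E) {U : E → ℝ} {t C τ C₂ β : ℝ} {m : ℕ}, Pot U t C →
    (∀ x, ‖fderiv ℝ (fderiv ℝ U) x‖ ≤ C₂) → 0 < τ →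
    (∀ x v : E, τ * ‖Sᗮ.orthogonalProjectionOnto v‖ ^ 2 ≤ fderiv ℝ (fderiv ℝ U) x v v) →
    ∀ {G : Set (E ≃ₗᵢ[ℝ] E)}, G.Finite → (∀ g ∈ G, ∀ x, U (g x) = U x) →
    (∀ g ∈ G, ∀ z ∈ Sᗮ, g z = z) → (∀ p ∈ S, (∀ g ∈ G, g p = p) → p = 0) →
    1 ≤ m → 0 < β →
    (∀ g ∈ G, Module.finrank ℝ (Mv (g.toLinearEquiv : E →ₗ[ℝ] E)) ≤ m) →
    (∀ g ∈ G, ∀ z : Sᗮ, ∫ x : S, Real.exp (2 * β *
      ‖(Mv (g.toLinearEquiv : E →ₗ[ℝ] E)).orthogonalProjectionOnto (x : E)‖) ∂(mu (sec S U z))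
        ≤ 3 * (mu (sec S U z)).real univ) →
    GPC (mu U) (9360000 * m / β ^ 2 + 2 / τ)

namespace Q5mod

theorem exists_finite_sub {G : Set (E ≃ₗᵢ[ℝ] E)} (S : Submodule ℝ E)
    (hfix : ∀ p ∈ S, (∀ g ∈ G, g p = p) → p = 0) :
    ∃ G' ⊆ G, G'.Finite ∧ ∀ p ∈ S, (∀ g ∈ G', g p = p) → p = 0 := by
  obtain ⟨G', hG', hfin, hcov⟩ := (isCompact_sphere (0:S) 1).elim_finite_subcover_image
    (b := G) (c := fun g => {x : S | g (x : E) ≠ (x : E)})
    (fun g _ => isOpen_ne_fun (g.continuous.comp continuous_subtype_val) continuous_subtype_val) (by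
      intro x hx
      have hx0 : x ≠ 0 := by
        rintro rfl
        simp at hx
      by_contra hcon
      apply hx0
      have h1 : (x : E) = 0 := by
        apply hfix _ x.2
        intro g hg
        by_contra hne
        exact hcon (mem_iUnion₂.mpr ⟨g, hg, hne⟩)
      exact Subtype.ext h1)
  refine ⟨G', hG', hfin, fun p hpS hp => ?_⟩
  by_contra hp0
  have hn : 0 < ‖p‖ := norm_pos_iff.2 hp0
  have hmem : (⟨‖p‖⁻¹ • p, S.smul_mem _ hpS⟩ : S) ∈ Metric.sphere (0:S) 1 := by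
    rw [mem_sphere_zero_iff_norm]
    change ‖‖p‖⁻¹ • p‖ = 1
    rw [norm_smul, norm_inv, norm_norm, inv_mul_cancel₀ hn.ne']
  obtain ⟨g, hg, hgx⟩ := mem_iUnion₂.1 (hcov hmem)
  apply hgx
  change g (‖p‖⁻¹ • p) = ‖p‖⁻¹ • p
  rw [map_smul, hp g hg]

/-- The trace of the second moments over a subspace. -/
theorem iso_trace {K : Set E} {R : ℝ} (hK : CB K R)
    (hcov : ∀ a : E, ∫ x in K, (inner ℝ a x) ^ 2 = ‖a‖ ^ 2 * volume.real K)
    (P : Submodule ℝ E) :
    ∫ x in K, ‖P.orthogonalProjectionOnto x‖ ^ 2 = Module.finrank ℝ P * volume.real K := by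
  set b := stdOrthonormalBasis ℝ P with hb
  have h1 : ∀ x, ‖P.orthogonalProjectionOnto x‖ ^ 2
      = ∑ i, (inner ℝ ((b i : P) : E) x) ^ 2 := by
    intro x
    rw [← b.sum_sq_norm_inner_right]
    refine Finset.sum_congr rfl fun i _ => ?_
    rw [Real.norm_eq_abs, sq_abs]
    congr 1
    rw [Submodule.inner_orthogonalProjectionOnto_eq_of_mem_left]
  simp only [h1]
  have hint : ∀ i, IntegrableOn (fun x : E => (inner ℝ ((b i : P) : E) x) ^ 2) K := fun i =>
    (hK.bm_of_cont (by fun_prop)).integrableOn hK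
  rw [integral_finsetSum _ fun i _ => hint i]
  have h2 : ∀ i, ∫ x in K, (inner ℝ ((b i : P) : E) x) ^ 2 = volume.real K := by
    intro i
    rw [hcov]
    have : ‖((b i : P) : E)‖ = 1 := b.norm_eq_one i
    rw [this]
    ring
  simp only [h2]
  rw [Finset.sum_const, Finset.card_univ, Fintype.card_fin, nsmul_eq_mul]

/-- Bernoulli's inequality for exponentials. -/
theorem exp_div_le {N : ℕ} (hN : 1 ≤ N) (t : ℝ) :
    Real.exp (t / N) ≤ 2 * (Real.exp t / (N * 2 ^ N) + (1 - 1 / N)) := by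
  have hN0 : (0:ℝ) < N := by exact_mod_cast hN
  set x : ℝ := Real.exp (t / N) / 2 with hx
  have hx0 : 0 < x := by positivity
  have h1 : Real.exp t = (2 * x) ^ N := by
    rw [hx, mul_div_cancel₀ _ (two_ne_zero), ← Real.exp_nat_mul]
    congr 1
    field_simp
  have h2 : 1 + (N:ℝ) * (x - 1) ≤ (1 + (x - 1)) ^ N :=
    one_add_mul_le_pow (by linarith) N
  have h3 : Real.exp (t / N) = 2 * x := by rw [hx]; ring
  rw [h3, h1, mul_pow]
  have h4 : (2:ℝ) ^ N * x ^ N / (N * 2 ^ N) = x ^ N / N := by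
    field_simp
  rw [h4]
  have h5 : (1 + (x - 1)) ^ N = x ^ N := by congr 1; ring
  rw [h5] at h2
  have h6 : x ≤ x ^ N / N + (1 - 1 / N) := by
    rw [← sub_nonneg]
    have : x ^ N / N + (1 - 1 / (N:ℝ)) - x = (x ^ N - (1 + N * (x - 1))) / N := by
      field_simp
      ring
    rw [this]
    exact div_nonneg (by linarith) hN0.le
  linarith

/-- Fibres of a body. -/
theorem fib_bdd {K : Set E} {R : ℝ} (hK : CB K R) (S : Submodule ℝ E) (y : E) :
    MeasurableSet {x : S | (x : E) + y ∈ K} ∧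
      {x : S | (x : E) + y ∈ K} ⊆ Metric.closedBall 0 (R + ‖y‖) := by
  constructor
  · have : Continuous (fun x : S => (x : E) + y) := by fun_prop
    exact this.measurable hK.meas
  · intro x hx
    have h1 := hK.sub hx
    rw [Metric.mem_closedBall, dist_zero_right] at h1 ⊢
    have h2 : ‖(x : E)‖ ≤ ‖(x : E) + y‖ + ‖y‖ := by
      have := norm_sub_le ((x : E) + y) y
      rwa [add_sub_cancel_right] at this
    have h3 : ‖x‖ = ‖(x : E)‖ := rfl
    rw [h3]
    linarith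

theorem fib_integrable {K : Set E} {R : ℝ} (hK : CB K R) (S : Submodule ℝ E) (y : E) {f : S → ℝ}
    (hf : Continuous f) : IntegrableOn f {x : S | (x : E) + y ∈ K} :=
  ((hf.continuousOn).integrableOn_compact (isCompact_closedBall 0 (R + ‖y‖))).mono_set
    (fib_bdd hK S y).2

theorem fib_lt_top {K : Set E} {R : ℝ} (hK : CB K R) (S : Submodule ℝ E) (y : E) :
    volume {x : S | (x : E) + y ∈ K} < ⊤ :=
  lt_of_le_of_lt (measure_mono (fib_bdd hK S y).2) measure_closedBall_lt_top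

theorem fib_mom {K : Set E} {R : ℝ} (hK : CB K R) (S P : Submodule ℝ E) (hPS : P ≤ S) (y : Sᗮ)
    {γ : ℝ} {N : ℕ} (hN : 1 ≤ N)
    (h : ∫ x : S in {x : S | (x : E) + (y : E) ∈ K},
        Real.exp (γ * ‖P.orthogonalProjectionOnto ((x : E) + (y : E))‖) ≤
      2 ^ N * volume.real {x : S | (x : E) + (y : E) ∈ K}) :
    ∫ x : S in {x : S | (x : E) + (y : E) ∈ K},
        Real.exp (γ / N * ‖P.orthogonalProjectionOnto (x : E)‖) ≤
      2 * volume.real {x : S | (x : E) + (y : E) ∈ K} := by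
  have hN0 : (0:ℝ) < N := by exact_mod_cast hN
  have hPy : P.orthogonalProjectionOnto (y : E) = 0 := by
    rw [Submodule.orthogonalProjectionOnto_eq_zero_iff]
    exact Submodule.orthogonal_le hPS y.2
  have e1 : ∀ x : S, P.orthogonalProjectionOnto ((x : E) + (y : E))
      = P.orthogonalProjectionOnto (x : E) := by
    intro x
    rw [map_add, hPy, add_zero]
  simp only [e1] at h
  set A := {x : S | (x : E) + (y : E) ∈ K} with hA
  have hfin : volume A < ⊤ := fib_lt_top hK S y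
  have c1 : Continuous fun x : S => Real.exp (γ / N * ‖P.orthogonalProjectionOnto (x : E)‖) := by
    fun_prop
  have c2 : Continuous fun x : S => Real.exp (γ * ‖P.orthogonalProjectionOnto (x : E)‖) := by
    fun_prop
  have i1 : IntegrableOn (fun x : S =>
      Real.exp (γ / N * ‖P.orthogonalProjectionOnto (x : E)‖)) A := fib_integrable hK S y c1
  have i2 : IntegrableOn (fun x : S =>
      Real.exp (γ * ‖P.orthogonalProjectionOnto (x : E)‖)) A := fib_integrable hK S y c2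
  have i3 : IntegrableOn (fun x : S =>
      2 * (Real.exp (γ * ‖P.orthogonalProjectionOnto (x : E)‖) / (N * 2 ^ N) + (1 - 1 / N))) A :=
    (((i2.div_const _).add (integrableOn_const (by exact hfin.ne))).const_mul 2)
  calc ∫ x : S in A, Real.exp (γ / N * ‖P.orthogonalProjectionOnto (x : E)‖)
      ≤ ∫ x : S in A, 2 * (Real.exp (γ * ‖P.orthogonalProjectionOnto (x : E)‖) / (N * 2 ^ N)
          + (1 - 1 / N)) := by
        refine integral_mono i1 i3 fun x => ?_
        have := exp_div_le hN (γ * ‖P.orthogonalProjectionOnto (x : E)‖)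
        calc Real.exp (γ / N * ‖P.orthogonalProjectionOnto (x : E)‖)
            = Real.exp (γ * ‖P.orthogonalProjectionOnto (x : E)‖ / N) := by
              congr 1
              ring
          _ ≤ _ := this
    _ = 2 * ((∫ x : S in A, Real.exp (γ * ‖P.orthogonalProjectionOnto (x : E)‖)) / (N * 2 ^ N)
          + (1 - 1 / N) * volume.real A) := by
        rw [integral_const_mul, integral_add (i2.div_const _)
          (integrableOn_const (by exact hfin.ne)), integral_div, setIntegral_const, smul_eq_mul]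
        ring
    _ ≤ 2 * ((2 ^ N * volume.real A) / (N * 2 ^ N) + (1 - 1 / N) * volume.real A) := by
        gcongr
    _ = 2 * volume.real A := by
        field_simp
        ring

theorem Mv_le (g : E ≃ₗᵢ[ℝ] E) (S : Submodule ℝ E) (hGS : ∀ z ∈ Sᗮ, g z = z) :
    Mv (g.toLinearEquiv : E →ₗ[ℝ] E) ≤ S := by
  have h1 : Sᗮ ≤ LinearMap.ker ((g.toLinearEquiv : E →ₗ[ℝ] E) - LinearMap.id) := by
    intro z hz
    rw [LinearMap.mem_ker, LinearMap.sub_apply, LinearMap.id_apply, sub_eq_zero]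
    exact hGS z hz
  have h2 := Submodule.orthogonal_le h1
  rwa [Submodule.orthogonal_orthogonal] at h2

end Q5mod

open Q5mod

/-- Module Q5, with `pot_main2` as a hypothesis. -/
theorem body_trunc_of (pot_main2 : PotMain2St E) {K : Set E} {R : ℝ} (hK : CB K R) (hKo : IsOpen K)
    (hsymm : ∀ x ∈ K, -x ∈ K)
    (hcov : ∀ a : E, ∫ x in K, (inner ℝ a x) ^ 2 = ‖a‖ ^ 2 * volume.real K)
    {G : Set (E ≃ₗᵢ[ℝ] E)} (hinv : ∀ g ∈ G, g '' K = K) (S : Submodule ℝ E)
    (hGS : ∀ g ∈ G, ∀ z ∈ Sᗮ, g z = z) (hfix : ∀ p ∈ S, (∀ g ∈ G, g p = p) → p = 0)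
    {m d : ℕ} (hm1 : 1 ≤ m)
    (hm : ∀ g ∈ G, Module.finrank ℝ (Mv (g.toLinearEquiv : E →ₗ[ℝ] E)) ≤ m)
    (hd : Module.finrank ℝ Sᗮ ≤ d) :
    ∃ K' : Set E, K' ⊆ K ∧ Convex ℝ K' ∧ MeasurableSet K' ∧
      3 / 4 * volume.real K ≤ volume.real K' ∧ PC K' (1264000 * m * (d + 1)) := by
  have hV : 0 < volume.real K := ENNReal.toReal_pos hK.vol0 hK.lt_top.ne
  have hm0 : (0:ℝ) < m := by exact_mod_cast hm1
  have hm1' : (1:ℝ) ≤ m := by exact_mod_cast hm1
  have hcov' : ∫ x in K, ‖Sᗮ.orthogonalProjectionOnto x‖ ^ 2 ≤ d * volume.real K := by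
    rw [iso_trace hK hcov]
    have : (Module.finrank ℝ Sᗮ : ℝ) ≤ d := by exact_mod_cast hd
    gcongr
  obtain ⟨K', hK'K, hK'c, hK'm, hK'v, hK'd, hK'inv, hK'sec⟩ :=
    exists_trunc hK hKo hsymm S hd hcov'
  have hK'0 : 0 < volume.real K' := lt_of_lt_of_le (by positivity) hK'v
  have hK' : CB K' R := by
    refine ⟨hK'c, hK'm, hK'K.trans hK.sub, ?_⟩
    intro h
    rw [Measure.real, h] at hK'0
    simp at hK'0
  refine ⟨K', hK'K, hK'c, hK'm, hK'v, ?_⟩
  -- exponential moments of the sections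
  set N : ℕ := 4 * d + 10 with hN
  have hN1 : 1 ≤ N := by omega
  have hNR : (N:ℝ) = 4 * d + 10 := by rw [hN]; push_cast; ring
  set γ : ℝ := 1 / (16 * Real.sqrt m) with hγ
  have hsm : 0 < Real.sqrt m := Real.sqrt_pos.2 hm0
  have hγ0 : 0 < γ := by positivity
  set β : ℝ := γ / N / 2 with hβ
  have hβ0 : 0 < β := by
    have : (0:ℝ) < N := by exact_mod_cast hN1
    positivity
  have h2β : 2 * β = γ / N := by rw [hβ]; ring
  have hmom : ∀ g ∈ G, ∀ y : Sᗮ, ∫ x : S in {x : S | (x : E) + (y : E) ∈ K'},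
      Real.exp (2 * β * ‖(Mv (g.toLinearEquiv : E →ₗ[ℝ] E)).orthogonalProjectionOnto (x : E)‖) ≤
        2 * volume.real {x : S | (x : E) + (y : E) ∈ K'} := by
    intro g hg y
    set P := Mv (g.toLinearEquiv : E →ₗ[ℝ] E) with hP
    have hPS : P ≤ S := Mv_le g S (hGS g hg)
    rcases hK'sec y with he | ⟨he, hA⟩
    · rw [he]
      simp
    · rw [he, h2β]
      refine fib_mom hK S P hPS y hN1 ?_
      have h1 : ∫ x in K, ‖P.orthogonalProjectionOnto x‖ ^ 2 ≤
          (Real.sqrt m) ^ 2 * volume.real K := by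
        rw [iso_trace hK hcov, Real.sq_sqrt hm0.le]
        have : (Module.finrank ℝ P : ℝ) ≤ m := by exact_mod_cast hm g hg
        gcongr
      have h2 := exp_moment hK P hsm h1
      have h3 : ∫ x in K, Real.exp (γ * ‖P.orthogonalProjectionOnto x‖) ≤ 2 * volume.real K := by
        refine le_trans (le_of_eq ?_) h2
        congr 1
        funext x
        congr 1
        rw [hγ]
        ring
      have h4 := sec_moment hK hsymm S P hγ0 h3 y
      refine h4.trans ?_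
      have h5 : (4:ℝ) ^ (Module.finrank ℝ Sᗮ + 2) ≤ 4 ^ (d + 2) :=
        pow_le_pow_right₀ (by norm_num) (by omega)
      calc (4:ℝ) ^ (Module.finrank ℝ Sᗮ + 2) * volume.real {x : S | (x : E) ∈ K}
          ≤ 4 ^ (d + 2) * (4 ^ (d + 3) * volume.real {x : S | (x : E) + (y : E) ∈ K}) := by
            gcongr
        _ = 2 ^ N * volume.real {x : S | (x : E) + (y : E) ∈ K} := by
            rw [← mul_assoc, ← pow_add]
            congr 1
            rw [show (4:ℝ) = 2 ^ 2 by norm_num, ← pow_mul]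
            congr 1
            omega
  -- finitely many symmetries
  obtain ⟨G', hG'G, hG'f, hfix'⟩ := exists_finite_sub S hfix
  set r : ℝ := Real.sqrt (8 * (d + 1)) with hr
  have hd0 : (0:ℝ) ≤ d := Nat.cast_nonneg d
  have hr2 : r ^ 2 = 8 * (d + 1) := Real.sq_sqrt (by positivity)
  have hr0 : 0 < r := Real.sqrt_pos.2 (by positivity)
  have hev : ∀ᶠ j : ℕ in atTop, ∀ g ∈ G', ∀ z : Sᗮ, ∫ x : S, Real.exp (2 * β *
      ‖(Mv (g.toLinearEquiv : E →ₗ[ℝ] E)).orthogonalProjectionOnto (x : E)‖)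
        ∂(mu (sec S (PUS K' S r j) z)) ≤ 3 * (mu (sec S (PUS K' S r j) z)).real univ :=
    (eventually_all_finite hG'f).2 fun g hg =>
      approx_sec hK' S _ (Mv_le g S (hGS g (hG'G hg))) hβ0 hr0 (hmom g (hG'G hg))
  have hτ : 0 < 1 / r ^ 2 := by positivity
  have hgpc : ∀ᶠ j : ℕ in atTop,
      GPC (mu (PUS K' S r j)) (9360000 * m / β ^ 2 + 2 / (1 / r ^ 2)) := by
    filter_upwards [hev] with j hj
    obtain ⟨⟨t, C, hU⟩, ⟨C₂, hU2⟩, hτU, hUinv⟩ := PUS_spec hK' S hr0 j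
    exact pot_main2 S hU hU2 hτ hτU hG'f
      (fun g hg => hUinv g (hK'inv g (hinv g (hG'G hg)) (hGS g (hG'G hg))) (hGS g (hG'G hg)))
      (fun g hg => hGS g (hG'G hg)) hfix' hm1 hβ0 (fun g hg => hm g (hG'G hg)) hj
  refine pc_of_PUS hK' S hr0 ?_ (by positivity) ?_ hgpc
  · intro x hx
    rw [hr2]
    have := hK'd x hx
    linarith
  · rw [hr2]
    have hsq : Real.sqrt m ^ 2 = m := Real.sq_sqrt hm0.le
    have e1 : 9360000 * (m:ℝ) / β ^ 2 = 9584640000 * (m:ℝ) ^ 2 * (4 * d + 10) ^ 2 := by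
      rw [hβ, hγ, hNR]
      have h1 : (1 / (16 * Real.sqrt m) / (4 * (d:ℝ) + 10) / 2) ^ 2
          = 1 / (1024 * m * (4 * d + 10) ^ 2) := by
        rw [div_pow, div_pow, div_pow, mul_pow, hsq]
        field_simp
        norm_num
      rw [h1]
      field_simp
      ring
    have e2 : (2:ℝ) / (1 / (8 * (d + 1))) = 16 * (d + 1) := by
      field_simp
      ring
    rw [e1, e2]
    have h3 : (4 * (d:ℝ) + 10) ^ 2 ≤ 100 * (d + 1) ^ 2 := by nlinarith
    have h4 : (d:ℝ) + 1 ≤ (m:ℝ) ^ 2 * (d + 1) ^ 2 := by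
      have h5 : (1:ℝ) ≤ (m:ℝ) ^ 2 := by nlinarith
      have h6 : (d:ℝ) + 1 ≤ (d + 1) ^ 2 := by nlinarith
      nlinarith
    have h7 : (m:ℝ) ^ 2 * (4 * (d:ℝ) + 10) ^ 2 ≤ (m:ℝ) ^ 2 * (100 * (d + 1) ^ 2) := by
      gcongr
    nlinarith

end Pool.Agent.H84.Sym
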