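import Pool.Agent.H84.Sym.Defs2
import Pool.Agent.H3.Sym.M3

/-!
# Project SYM2, module Q7: linear symmetries, reduction to orthogonal symmetries
-/

set_option autoImplicit false

open MeasureTheory Measure Set
open scoped Pointwise ENNReal

namespace Pool.Agent.H84.Sym

open Pool.Agent.H84 Pool.Agent.H84.Unc

/-- Module Q7, with the orthogonal case as a hypothesis. -/
theorem lin_body_trunc_of {n m d : ℕ}
    (hbt : ∀ (K : Set (EuclideanSpace ℝ (Fin (n + 1)))) (R : ℝ), CB K R → IsOpen K →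
      (∀ x ∈ K, -x ∈ K) →
      (∀ a : EuclideanSpace ℝ (Fin (n + 1)),
        ∫ x in K, (inner ℝ a x) ^ 2 = ‖a‖ ^ 2 * volume.real K) →
      ∀ G : Set (EuclideanSpace ℝ (Fin (n + 1)) ≃ₗᵢ[ℝ] EuclideanSpace ℝ (Fin (n + 1))),
      (∀ g ∈ G, g '' K = K) → ∀ S : Submodule ℝ (EuclideanSpace ℝ (Fin (n + 1))),
      (∀ g ∈ G, ∀ z ∈ Sᗮ, g z = z) → (∀ p ∈ S, (∀ g ∈ G, g p = p) → p = 0) →
      (∀ g ∈ G, Module.finrank ℝ (Mv (g.toLinearEquiv :
        EuclideanSpace ℝ (Fin (n + 1)) →ₗ[ℝ] EuclideanSpace ℝ (Fin (n + 1)))) ≤ m) →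
      Module.finrank ℝ Sᗮ ≤ d →
      ∃ K' : Set (EuclideanSpace ℝ (Fin (n + 1))), K' ⊆ K ∧ Convex ℝ K' ∧ MeasurableSet K' ∧
        3 / 4 * volume.real K ≤ volume.real K' ∧ PC K' (1264000 * m * (d + 1)))
    {Ω : Set (EuclideanSpace ℝ (Fin (n + 1)))} (hΩo : IsOpen Ω)
    (hΩc : Convex ℝ Ω) (hΩb : Bornology.IsBounded Ω) (hsymm : ∀ x ∈ Ω, -x ∈ Ω)
    (hne : Ω.Nonempty)
    {G : Set (EuclideanSpace ℝ (Fin (n + 1)) →ₗ[ℝ] EuclideanSpace ℝ (Fin (n + 1)))}
    (hinv : ∀ g ∈ G, g '' Ω = Ω)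
    (hrk : ∀ g ∈ G, Module.finrank ℝ (LinearMap.range (g - LinearMap.id)) ≤ m)
    (hd : Module.finrank ℝ (FixG G) ≤ d) {s : ℝ} (hs : 0 < s)
    (hcov : ∀ a : EuclideanSpace ℝ (Fin (n + 1)),
      ∫ x in Ω, (inner ℝ a x) ^ 2 ≤ s ^ 2 * ‖a‖ ^ 2 * volume.real Ω) :
    ∃ Ω' : Set (EuclideanSpace ℝ (Fin (n + 1))), Ω' ⊆ Ω ∧ Convex ℝ Ω' ∧ MeasurableSet Ω' ∧
      3 / 4 * volume.real Ω ≤ volume.real Ω' ∧ PC Ω' (1264000 * m * (d + 1) * s) := by
  have h0 : (0 : EuclideanSpace ℝ (Fin (n + 1))) ∈ Ω := by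
    obtain ⟨x, hx⟩ := hne
    have h1 := hΩc hx (hsymm x hx) (by norm_num : (0:ℝ) ≤ 1 / 2) (by norm_num : (0:ℝ) ≤ 1 / 2)
      (by norm_num)
    simpa using h1
  -- the body
  obtain ⟨R1, hR1⟩ := hΩb.subset_closedBall 0
  have hΩ : CB Ω R1 := ⟨hΩc, hΩo.measurableSet, hR1, (hΩo.measure_pos volume ⟨0, h0⟩).ne'⟩
  have hVΩ : 0 < volume.real Ω := ENNReal.toReal_pos hΩ.vol0 hΩ.lt_top.ne
  obtain ⟨v, hv⟩ := exists_iso_basis hΩ hΩo h0
  -- the linear map
  let T0 : EuclideanSpace ℝ (Fin (n + 1)) →ₗ[ℝ] EuclideanSpace ℝ (Fin (n + 1)) :=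
    { toFun := fun x => WithLp.toLp 2 (fun i => (inner ℝ (v i) x : ℝ))
      map_add' := fun x y => by ext i; simp [inner_add_right]
      map_smul' := fun c x => by ext i; simp [inner_smul_right] }
  have hT0 : ∀ x i, T0 x i = (inner ℝ (v i) x : ℝ) := fun x i => rfl
  have hinj : Function.Injective T0 := by
    rw [injective_iff_map_eq_zero]
    intro x hx
    refine InnerProductSpace.ext_inner_left_basis v (fun i => ?_)
    rw [inner_zero_right, ← hT0 x i, hx]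
    rfl
  let TE : EuclideanSpace ℝ (Fin (n + 1)) ≃L[ℝ] EuclideanSpace ℝ (Fin (n + 1)) :=
    (LinearEquiv.ofInjectiveEndo T0 hinj).toContinuousLinearEquiv
  have hTE : ∀ x i, TE x i = (inner ℝ (v i) x : ℝ) := fun x i => rfl
  set Ψ := TE.symm with hΨ
  have hTΨ : ∀ y, TE (Ψ y) = y := fun y => TE.apply_symm_apply y
  have hΨT : ∀ y, Ψ (TE y) = y := fun y => TE.symm_apply_apply y
  set K := Ψ ⁻¹' Ω with hKd
  obtain ⟨R0, hK⟩ : ∃ R, CB K R := by
    have hop : IsOpen (Ψ ⁻¹' Ω) := hΩo.preimage Ψ.continuous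
    have hbd : Bornology.IsBounded (Ψ ⁻¹' Ω) := by
      have h1 : Ψ ⁻¹' Ω = Ψ.symm '' Ω := by
        ext y
        simp only [mem_preimage, mem_image]
        constructor
        · intro h
          exact ⟨Ψ y, h, by simp⟩
        · rintro ⟨x, hx, rfl⟩
          simpa using hx
      rw [h1]
      exact Ψ.symm.lipschitz.isBounded_image hΩb
    obtain ⟨R, hR⟩ := hbd.subset_closedBall 0
    refine ⟨R, ⟨?_, hop.measurableSet, hR, ?_⟩⟩
    · exact hΩc.linear_preimage Ψ.toLinearEquiv.toLinearMap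
    · exact (hop.measure_pos volume ⟨0, by simpa using h0⟩).ne'
  have hVK : 0 < volume.real K := ENNReal.toReal_pos hK.vol0 hK.lt_top.ne
  obtain ⟨D, hD, hjac⟩ := exists_jac Ψ
  obtain ⟨hvol, hI⟩ := hjac Ω hΩo.measurableSet
  rw [← hKd] at hvol hI
  have hm : ∀ i j, ∫ y in K, y i * y j = if i = j then volume.real K else 0 := by
    intro i j
    have h1 := hI (fun x => (inner ℝ (v i) x : ℝ) * (inner ℝ (v j) x : ℝ))
    have h2 : ∀ y, (inner ℝ (v i) (Ψ y) : ℝ) * (inner ℝ (v j) (Ψ y) : ℝ) = y i * y j := by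
      intro y
      rw [← hTE, ← hTE, hTΨ]
    simp only [h2] at h1
    rw [hv i j, hvol] at h1
    have h3 : D * (if i = j then volume.real K else 0) = D * ∫ y in K, y i * y j := by
      rw [← h1]
      split_ifs <;> simp
    exact (mul_left_cancel₀ hD.ne' h3).symm
  have hfun := norm_sq_of_iso hK hm
  -- the orthogonal symmetries
  set G' : Set (EuclideanSpace ℝ (Fin (n + 1)) ≃ₗᵢ[ℝ] EuclideanSpace ℝ (Fin (n + 1))) :=
    {γ | ∃ g ∈ G, ∀ y, Ψ (γ y) = g (Ψ y)} with hG'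
  have hex : ∀ g ∈ G, ∃ γ ∈ G', ∀ y, Ψ (γ y) = g (Ψ y) := by
    intro g hg
    have hsurj : Function.Surjective g := by
      rw [← LinearMap.range_eq_top]
      refine Submodule.eq_top_of_nonempty_interior' _ ⟨0, ?_⟩
      rw [mem_interior]
      refine ⟨Ω, ?_, hΩo, h0⟩
      rw [← hinv g hg]
      rintro _ ⟨x, _, rfl⟩
      exact ⟨x, rfl⟩
    have hinjg : Function.Injective g := LinearMap.injective_iff_surjective.2 hsurj
    let gE : EuclideanSpace ℝ (Fin (n + 1)) ≃L[ℝ] EuclideanSpace ℝ (Fin (n + 1)) :=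
      (LinearEquiv.ofBijective g ⟨hinjg, hsurj⟩).toContinuousLinearEquiv
    have hgE : ∀ x, gE x = g x := fun x => rfl
    set g' := (Ψ.trans gE).trans TE with hg'
    have hg'a : ∀ y, Ψ (g' y) = g (Ψ y) := by
      intro y
      rw [hg', ContinuousLinearEquiv.trans_apply, ContinuousLinearEquiv.trans_apply, hΨT, hgE]
    have hmem : ∀ x, g x ∈ Ω ↔ x ∈ Ω := by
      intro x
      constructor
      · intro h
        rw [← hinv g hg] at h
        obtain ⟨z, hz, hzx⟩ := h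
        rw [← hinjg hzx]
        exact hz
      · intro h
        rw [← hinv g hg]
        exact ⟨x, h, rfl⟩
    have hpre : g' ⁻¹' K = K := by
      ext y
      rw [mem_preimage, hKd, mem_preimage, mem_preimage, hg'a, hmem]
    have hpre' : g'.symm ⁻¹' K = K := by
      ext y
      rw [mem_preimage]
      constructor
      · intro h
        have h2 : g'.symm y ∈ g' ⁻¹' K := by rw [hpre]; exact h
        rw [mem_preimage, ContinuousLinearEquiv.apply_symm_apply] at h2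
        exact h2
      · intro h
        rw [← hpre, mem_preimage, ContinuousLinearEquiv.apply_symm_apply]
        exact h
    have hnorm : ∀ y, ‖g' y‖ = ‖y‖ := by
      intro y
      refine le_antisymm (iso_contr hK hfun g' hpre y) ?_
      have := iso_contr hK hfun g'.symm hpre' (g' y)
      rwa [ContinuousLinearEquiv.symm_apply_apply] at this
    let γ : EuclideanSpace ℝ (Fin (n + 1)) ≃ₗᵢ[ℝ] EuclideanSpace ℝ (Fin (n + 1)) :=
      ⟨g'.toLinearEquiv, hnorm⟩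
    have hγ : ∀ y, Ψ (γ y) = g (Ψ y) := hg'a
    exact ⟨γ, ⟨g, hg, hγ⟩, hγ⟩
  have hG'inv : ∀ γ ∈ G', γ '' K = K := by
    rintro γ ⟨g, hg, hγ⟩
    ext x
    constructor
    · rintro ⟨y, hy, rfl⟩
      rw [hKd, mem_preimage] at hy ⊢
      rw [hγ, ← hinv g hg]
      exact ⟨_, hy, rfl⟩
    · intro hx
      rw [hKd, mem_preimage, ← hinv g hg] at hx
      obtain ⟨z, hz, hzx⟩ := hx
      refine ⟨TE z, ?_, ?_⟩
      · rw [hKd, mem_preimage, hΨT]
        exact hz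
      · apply Ψ.injective
        rw [hγ, hΨT, hzx]
  -- the common fixed space
  set F : Submodule ℝ (EuclideanSpace ℝ (Fin (n + 1))) :=
    ⨅ γ ∈ G', LinearMap.ker ((γ.toLinearEquiv :
      EuclideanSpace ℝ (Fin (n + 1)) →ₗ[ℝ] EuclideanSpace ℝ (Fin (n + 1))) - LinearMap.id)
    with hF
  have hFmem : ∀ p, p ∈ F ↔ ∀ γ ∈ G', γ p = p := by
    intro p
    rw [hF]; simp only [Submodule.mem_iInf]
    refine forall₂_congr fun γ _ => ?_
    rw [LinearMap.mem_ker, LinearMap.sub_apply, LinearMap.id_apply, sub_eq_zero]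
    exact Iff.rfl
  have hGmem : ∀ p, p ∈ FixG G ↔ ∀ g ∈ G, g p = p := by
    intro p
    rw [FixG]; simp only [Submodule.mem_iInf]
    refine forall₂_congr fun g _ => ?_
    rw [LinearMap.mem_ker, LinearMap.sub_apply, LinearMap.id_apply, sub_eq_zero]
  have hG'S : ∀ γ ∈ G', ∀ z ∈ (Fᗮ)ᗮ, γ z = z := by
    intro γ hγ z hz
    rw [Submodule.orthogonal_orthogonal] at hz
    exact (hFmem z).1 hz γ hγ
  have hG'fix : ∀ p ∈ Fᗮ, (∀ γ ∈ G', γ p = p) → p = 0 := by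
    intro p hp hp'
    have h1 : p ∈ F := (hFmem p).2 hp'
    have h2 : (inner ℝ p p : ℝ) = 0 := (Submodule.mem_orthogonal F p).1 hp p h1
    exact inner_self_eq_zero.1 h2
  have hd' : Module.finrank ℝ (Fᗮ)ᗮ ≤ d := by
    rw [Submodule.orthogonal_orthogonal]
    refine le_trans ?_ hd
    have h1 : F.map (Ψ.toLinearEquiv : EuclideanSpace ℝ (Fin (n + 1)) →ₗ[ℝ]
        EuclideanSpace ℝ (Fin (n + 1))) ≤ FixG G := by
      rintro _ ⟨p, hp, rfl⟩
      rw [hGmem]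
      intro g hg
      obtain ⟨γ, hγG, hγ⟩ := hex g hg
      have h2 : γ p = p := (hFmem p).1 hp γ hγG
      change g (Ψ p) = Ψ p
      rw [← hγ, h2]
    calc Module.finrank ℝ F = Module.finrank ℝ (F.map (Ψ.toLinearEquiv :
          EuclideanSpace ℝ (Fin (n + 1)) →ₗ[ℝ] EuclideanSpace ℝ (Fin (n + 1)))) :=
          (LinearEquiv.finrank_map_eq Ψ.toLinearEquiv F).symm
      _ ≤ _ := Submodule.finrank_mono h1
  have hG'rk : ∀ γ ∈ G', Module.finrank ℝ (Mv (γ.toLinearEquiv :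
        EuclideanSpace ℝ (Fin (n + 1)) →ₗ[ℝ] EuclideanSpace ℝ (Fin (n + 1)))) ≤ m := by
    rintro γ ⟨g, hg, hγ⟩
    refine le_trans ?_ (hrk g hg)
    set A : EuclideanSpace ℝ (Fin (n + 1)) →ₗ[ℝ] EuclideanSpace ℝ (Fin (n + 1)) :=
      (γ.toLinearEquiv : EuclideanSpace ℝ (Fin (n + 1)) →ₗ[ℝ] EuclideanSpace ℝ (Fin (n + 1)))
        - LinearMap.id with hA
    have h1 : Module.finrank ℝ (Mv (γ.toLinearEquiv :
        EuclideanSpace ℝ (Fin (n + 1)) →ₗ[ℝ] EuclideanSpace ℝ (Fin (n + 1))))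
        = Module.finrank ℝ (LinearMap.range A) := by
      have h2 := Submodule.finrank_add_finrank_orthogonal (LinearMap.ker A)
      have h3 := LinearMap.finrank_range_add_finrank_ker A
      rw [Mv, ← hA]
      omega
    rw [h1]
    have h4 : A = (TE.toLinearEquiv : EuclideanSpace ℝ (Fin (n + 1)) →ₗ[ℝ]
        EuclideanSpace ℝ (Fin (n + 1))).comp ((g - LinearMap.id).comp
          (Ψ.toLinearEquiv : EuclideanSpace ℝ (Fin (n + 1)) →ₗ[ℝ]
            EuclideanSpace ℝ (Fin (n + 1)))) := by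
      refine LinearMap.ext fun y => ?_
      change γ y - y = TE (g (Ψ y) - Ψ y)
      rw [← hγ, map_sub, hTΨ, hTΨ]
    rw [h4, LinearMap.range_comp]
    refine (Submodule.finrank_map_le _ _).trans ?_
    refine Submodule.finrank_mono ?_
    exact LinearMap.range_comp_le_range _ _
  have hKo : IsOpen K := hΩo.preimage Ψ.continuous
  have hKs : ∀ x ∈ K, -x ∈ K := by
    intro x hx
    rw [hKd, mem_preimage] at hx ⊢
    rw [map_neg]
    exact hsymm _ hx
  have hKcov : ∀ a : EuclideanSpace ℝ (Fin (n + 1)),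
      ∫ x in K, (inner ℝ a x) ^ 2 = ‖a‖ ^ 2 * volume.real K := by
    intro a
    have h1 := hfun ((InnerProductSpace.toDual ℝ (EuclideanSpace ℝ (Fin (n + 1)))) a)
    rw [LinearIsometryEquiv.norm_map] at h1
    simp only [InnerProductSpace.toDual_apply_apply] at h1
    rw [← h1, mul_comm]
  obtain ⟨K', hK'K, hK'c, hK'm, hK'v, hPC⟩ := hbt K R0 hK hKo hKs hKcov G' hG'inv Fᗮ hG'S hG'fix
    hG'rk hd'
  have hK'0 : 0 < volume.real K' := lt_of_lt_of_le (by positivity) hK'v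
  have hpre : Ψ ⁻¹' (TE ⁻¹' K') = K' := by
    ext y
    rw [mem_preimage, mem_preimage, hTΨ]
  have hΩ'm : MeasurableSet (TE ⁻¹' K') := TE.continuous.measurable hK'm
  have hK'B : CB (Ψ ⁻¹' (TE ⁻¹' K')) R0 := by
    rw [hpre]
    refine ⟨hK'c, hK'm, hK'K.trans hK.sub, ?_⟩
    intro h
    rw [Measure.real, h] at hK'0
    simp at hK'0
  refine ⟨TE ⁻¹' K', ?_, hK'c.linear_preimage TE.toLinearEquiv.toLinearMap, hΩ'm, ?_, ?_⟩
  · intro x hx
    have h1 : TE x ∈ K := hK'K hx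
    rw [hKd, mem_preimage, hΨT] at h1
    exact h1
  · have h1 := (hjac (TE ⁻¹' K') hΩ'm).1
    rw [hpre] at h1
    rw [h1, hvol]
    nlinarith
  refine PC_lin Ψ hΩ'm hK'B (by rw [hpre]; exact hPC) hs.le fun l => ?_
  obtain ⟨w, rfl⟩ := (InnerProductSpace.toDual ℝ (EuclideanSpace ℝ (Fin (n + 1)))).surjective l
  have h1 := hfun (((InnerProductSpace.toDual ℝ (EuclideanSpace ℝ (Fin (n + 1)))) w).comp
    (Ψ : EuclideanSpace ℝ (Fin (n + 1)) →L[ℝ] EuclideanSpace ℝ (Fin (n + 1))))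
  have h2 := hcov w
  have h3 := hI (fun x => (inner ℝ w x : ℝ) ^ 2)
  rw [h3, hvol] at h2
  have h4 : ∫ y in K, ((((InnerProductSpace.toDual ℝ (EuclideanSpace ℝ (Fin (n + 1)))) w).comp
      (Ψ : EuclideanSpace ℝ (Fin (n + 1)) →L[ℝ] EuclideanSpace ℝ (Fin (n + 1)))) y) ^ 2
      = ∫ y in K, (inner ℝ w (Ψ y) : ℝ) ^ 2 := rfl
  rw [h4] at h1
  rw [LinearIsometryEquiv.norm_map]
  apply le_of_sq_le_sq _ (by positivity)
  rw [mul_pow]
  have h5 : (D * volume.real K) * ‖((InnerProductSpace.toDual ℝ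
      (EuclideanSpace ℝ (Fin (n + 1)))) w).comp
      (Ψ : EuclideanSpace ℝ (Fin (n + 1)) →L[ℝ] EuclideanSpace ℝ (Fin (n + 1)))‖ ^ 2 ≤
      (D * volume.real K) * (s ^ 2 * ‖w‖ ^ 2) := by
    rw [mul_assoc, h1]
    linarith
  exact le_of_mul_le_mul_left h5 (by positivity)

end Pool.Agent.H84.Sym
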