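import Pool.Agent.H31.Sym.Q5a
import Pool.Agent.H31.Sym.Q7a

/-!
# Project SYM2, modules Q5 and Q7 together, with `pot_main2` as a hypothesis
-/

set_option autoImplicit false

open MeasureTheory Measure Set
open scoped Pointwise ENNReal

namespace Pool.Agent.H84.Sym

open Pool.Agent.H84 Pool.Agent.H84.Unc

theorem lin_body_trunc_of_pot {n m d : ℕ} (hpot : PotMain2St (EuclideanSpace ℝ (Fin (n + 1))))
    {Ω : Set (EuclideanSpace ℝ (Fin (n + 1)))} (hΩo : IsOpen Ω)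
    (hΩc : Convex ℝ Ω) (hΩb : Bornology.IsBounded Ω) (hsymm : ∀ x ∈ Ω, -x ∈ Ω)
    (hne : Ω.Nonempty)
    {G : Set (EuclideanSpace ℝ (Fin (n + 1)) →ₗ[ℝ] EuclideanSpace ℝ (Fin (n + 1)))}
    (hinv : ∀ g ∈ G, g '' Ω = Ω) (hm1 : 1 ≤ m)
    (hrk : ∀ g ∈ G, Module.finrank ℝ (LinearMap.range (g - LinearMap.id)) ≤ m)
    (hd : Module.finrank ℝ (FixG G) ≤ d) {s : ℝ} (hs : 0 < s)
    (hcov : ∀ a : EuclideanSpace ℝ (Fin (n + 1)),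
      ∫ x in Ω, (inner ℝ a x) ^ 2 ≤ s ^ 2 * ‖a‖ ^ 2 * volume.real Ω) :
    ∃ Ω' : Set (EuclideanSpace ℝ (Fin (n + 1))), Ω' ⊆ Ω ∧ Convex ℝ Ω' ∧ MeasurableSet Ω' ∧
      3 / 4 * volume.real Ω ≤ volume.real Ω' ∧ PC Ω' (1264000 * m * (d + 1) * s) :=
  lin_body_trunc_of (fun _ _ hK hKo hs' hc _ hG S h1 h2 h3 h4 =>
    body_trunc_of hpot hK hKo hs' hc hG S h1 h2 hm1 h3 h4) hΩo hΩc hΩb hsymm hne hinv hrk hd hs hcov

end Pool.Agent.H84.Sym
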